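import Pool.Agent.Helper13.TWH.E
import Pool.Agent.Helper10.TWX.X3

/-!
# Project RP: all sections of the twists come from rational points over places with `gcd(n, ord_O g) ∣ j`
-/

universe u

set_option linter.unusedSectionVars false

namespace Pool.Agent.RP

open VC Polynomial Pool.Agent.LT Pool.Agent.SC Pool.Agent.GC Pool.Agent.Helper91.Sect Pool.Agent
  Pool.Agent.TWH Pool.Agent.TWX

/-- A monic polynomial with coefficients in `W` and `p(0)⁻¹ ∈ W`: its roots are units. -/
theorem root_unit {k Ω : Type u} [Field k] [Field Ω] [Algebra k Ω] {W : ValuationSubring Ω} {p : k[X]}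
    (hp : p.Monic) (hW : ∀ i, algebraMap k Ω (p.coeff i) ∈ W) (h0 : p.coeff 0 ≠ 0)
    (h0' : algebraMap k Ω (p.coeff 0)⁻¹ ∈ W) {γ : k} (hγ : eval γ p = 0) :
    algebraMap k Ω γ ∈ W ∧ algebraMap k Ω γ⁻¹ ∈ W := by
  classical
  have h1 : algebraMap k Ω γ ∈ W := by
    by_contra hn
    have h2 : 1 < W.valuation (algebraMap k Ω γ) := by
      rw [← not_le, W.valuation_le_one_iff]
      exact hn
    set d := p.natDegree with hd
    have h3 : algebraMap k Ω γ ^ d = -∑ i ∈ Finset.range d, algebraMap k Ω (p.coeff i) * algebraMap k Ω γ ^ i := by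
      have h4 := congrArg (algebraMap k Ω) hγ
      rw [eval_eq_sum_range, Finset.sum_range_succ, map_add, map_zero, ← hd] at h4
      have h5 : p.coeff d = 1 := hp.coeff_natDegree
      rw [h5, one_mul, map_pow, map_sum] at h4
      simp only [map_mul, map_pow] at h4
      exact eq_neg_of_add_eq_zero_right h4
    have h4 : W.valuation (algebraMap k Ω γ ^ d) < W.valuation (algebraMap k Ω γ ^ d) := by
      nth_rw 1 [h3]
      rw [Valuation.map_neg]
      have h6 : (0 : W.ValueGroup) < W.valuation (algebraMap k Ω γ ^ d) := by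
        rw [map_pow]
        exact pow_pos (lt_trans zero_lt_one h2) _
      refine Valuation.map_sum_lt _ h6.ne' fun i hi => ?_
      rw [map_mul, map_pow, map_pow]
      have h7 : W.valuation (algebraMap k Ω (p.coeff i)) ≤ 1 := (W.valuation_le_one_iff _).2 (hW i)
      calc W.valuation (algebraMap k Ω (p.coeff i)) * W.valuation (algebraMap k Ω γ) ^ i
          ≤ 1 * W.valuation (algebraMap k Ω γ) ^ i := mul_le_mul_left h7 _
        _ = W.valuation (algebraMap k Ω γ) ^ i := one_mul _
        _ < W.valuation (algebraMap k Ω γ) ^ d := pow_lt_pow_right₀ h2 (Finset.mem_range.1 hi)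
    exact lt_irrefl _ h4
  refine ⟨h1, ?_⟩
  have hγ0 : γ ≠ 0 := by
    rintro rfl
    rw [← coeff_zero_eq_eval_zero] at hγ
    exact h0 hγ
  have h2 : γ⁻¹ = -(p.coeff 0)⁻¹ * eval γ p.divX := by
    have h3 : eval γ p.divX * γ + p.coeff 0 = 0 := by
      have h4 := congrArg (eval γ) (divX_mul_X_add p)
      rw [eval_add, eval_mul, eval_X, eval_C, hγ] at h4
      exact h4
    have h4 : p.coeff 0 = -(eval γ p.divX * γ) := eq_neg_of_add_eq_zero_right h3
    rw [h4] at h0 ⊢
    have h5 : eval γ p.divX ≠ 0 := by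
      intro h6
      rw [h6] at h0
      simp at h0
    field_simp
  rw [h2, map_mul, map_neg, eval_eq_sum_range, map_sum]
  refine W.mul_mem _ _ (W.neg_mem _ h0') (sum_mem fun i _ => ?_)
  rw [map_mul, map_pow, coeff_divX]
  exact W.mul_mem _ _ (hW _) (pow_mem h1 i)

/-- The section `s` of the curve `K / k`, `K ⊇ K₀ ∋ g`, comes from a rational point which lies over a place `O` of
`K₀` such that `gcd(n, ord_O(g))` divides `j`. -/
def FromPoint {k K₀ K : Type u} [Field k] [Field K₀] [Field K] [Algebra k K₀] [Algebra k K] [Algebra K₀ K]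
    (g : K₀) (n j : ℕ) (s : GaloisSection k K) : Prop :=
  ∃ V : ValuationSubring (Kur k K), V ≠ ⊤ ∧ (∀ c : Kur k K, IsAlgebraic k c → c ∈ V) ∧
    (∀ (γ : Gk k K) (w : Kur k K), s.toHom γ w ∈ V ↔ w ∈ V) ∧
    (∀ z : K, algebraMap K (Kur k K) z ∈ V →
      ∃ c : k, algebraMap K (Kur k K) (z - algebraMap k K c) ∈ V.nonunits) ∧
    ∃ δ : ℕ, OrdGcd (V.comap ((algebraMap K (Kur k K)).comp (algebraMap K₀ K))) g n δ ∧ δ ∣ j

/-- All sections of the twists `v^j yⁿ = g` come from rational points over places `O` with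
`gcd(n, ord_O(g)) ∣ j`. -/
def RPTwist {k K₀ : Type u} [Field k] [Field K₀] [Algebra k K₀] (g : K₀) (v : k) : Prop :=
  ∀ n j : ℕ, 0 < n → ¬ n ∣ j → ∀ (K : Type u) [Field K] [Algebra k K] [Algebra K₀ K] [IsScalarTower k K₀ K]
    (y : K), IntermediateField.adjoin K₀ {y} = ⊤ →
    algebraMap k K (v ^ j) * y ^ n = algebraMap K₀ K g →
    (∀ z : MM k K, IntermediateField.adjoin (kbar k K) {z} ≠ ⊤) →
    ∀ s : GaloisSection k K, FromPoint g n j s

end Pool.Agent.RP
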