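import Pool.Agent.Helper10.SE.M8

/-!
# Project RP: the data of the bad places, with coefficients in `W`, for families of curves
(adapted from `SE/M8.lean`)
-/

universe u

set_option linter.unusedSectionVars false
set_option maxHeartbeats 1000000

namespace Pool.Agent.RP

open VC Polynomial Pool.Agent.LT Pool.Agent.SC Pool.Agent.GC Pool.Agent.Helper91.Sect Pool.Agent
  Pool.Agent.TW Pool.Agent.TWU Pool.Agent.TWX Pool.Agent.SE MulAction

/-- **The data of the bad places.** -/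
theorem dat (hLC : StmtLC.{u}) (hCert : StmtCert.{u}) (hSP : StmtSP.{u}) (hCh : StmtChart.{u})
    {k₀ : Type u} [Field k₀] [CharZero k₀] {N r : ℕ} {M : (MvPolynomial (Fin N) k₀)[X][X]}
    (hM : Irreducible M) (hM0 : 0 < M.natDegree)
    {P : Fin r → (MvPolynomial (Fin N) k₀)[X][X]} (hP : ∀ s, ¬ M ∣ P s)
    {ff₁ : (MvPolynomial (Fin N) k₀)[X]} (hff₁0 : ff₁ ≠ 0) :
    ∃ E U : Finset (MvPolynomial (Fin N) k₀), U ⊆ E ∧ 0 ∉ U ∧
      ∀ (k K₁ : Type u) [Field k] [Field K₁] [Algebra k K₁], IsFunctionField k K₁ →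
        ∀ (ι : k₀ →+* k) (a : Fin N → k) (x z : K₁), Transcendental k x →
        IntermediateField.adjoin k {x, z} = ⊤ → ev3 ι a x z M = 0 →
        (∀ h ∈ U, evp ι a h ≠ 0) →
        ∀ W : ValuationSubring (AlgebraicClosure k),
        (∀ h ∈ E, algebraMap k (AlgebraicClosure k) (evp ι a h) ∈ W) →
        (∀ h ∈ U, W.valuation (algebraMap k (AlgebraicClosure k) (evp ι a h)) = 1) →
        ∀ (e : Fin r → ℤ) (P₁ : Place k K₁),
          (x⁻¹ ∈ P₁.ring.nonunits ∨ aeval x (ff₁.map (evp ι a)) ∈ P₁.ring.nonunits) →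
          ∃ (θ π : K₁) (q p : k[X]), PData (∏ s, ev3 ι a x z (P s) ^ e s) P₁ θ π q p ∧
            (∀ i, algebraMap k (AlgebraicClosure k) (p.coeff i) ∈ W) ∧
            algebraMap k (AlgebraicClosure k) (p.coeff 0)⁻¹ ∈ W := by
  classical
  obtain ⟨L, _, _, X₀, Z₀, hLF, hX₀, hgenL, hker, hspec⟩ := hSP hM hM0
  have hR0 : CharZero (PF k₀ N) := charZero_of_injective_algebraMap
    (IsFractionRing.injective (MvPolynomial (Fin N) k₀) (PF k₀ N))
  have hPs : ∀ s, evg X₀ Z₀ (P s) ≠ 0 := fun s h => hP s ((hker _).1 h)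
  -- the charts
  obtain ⟨n, xc, zc, Φc, hxc, hgc, hmc, hic, h0c, hdc, hcov⟩ := exists_charts hLC hLF
  choose T fR EC UC hxT hdT hfR hUEC h0C hchart using fun i : Fin n =>
    hCh hLF hX₀ hgenL hPs hff₁0 (hxc i) (hgc i) (hmc i) (hic i) (h0c i)
  -- the covering
  let y : Fin n → Fin 2 → L := fun i => ![xc i, (ev2 (xc i) (zc i) (derivative (Φc i)))⁻¹]
  have hy0 : ∀ i j, y i j ≠ 0 := by
    intro i j
    fin_cases j
    · exact fun h => hxc i (by
        change xc i = 0 at h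
        rw [h]
        exact isAlgebraic_zero)
    · exact inv_ne_zero (hdc i)
  choose Qc hQ0 hQ1 using hCert hy0 (fun O hO => by
    obtain ⟨i, h1, h2⟩ := hcov O hO
    refine ⟨i, fun j => ?_⟩
    fin_cases j
    · exact h1
    · exact h2)
  -- numerators and denominators of the coefficients
  have hfrac : ∀ q : PF k₀ N, ∃ (r d : MvPolynomial (Fin N) k₀), d ≠ 0 ∧
      algebraMap (MvPolynomial (Fin N) k₀) (PF k₀ N) r /
        algebraMap (MvPolynomial (Fin N) k₀) (PF k₀ N) d = q := by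
    intro q
    obtain ⟨r, d, hd, hq⟩ := IsFractionRing.div_surjective (A := MvPolynomial (Fin N) k₀) q
    exact ⟨r, d, nonZeroDivisors.ne_zero hd, hq⟩
  choose nu de hde hnd using hfrac
  let TD : Finset L := Finset.univ.biUnion fun c : Fin n → Fin 2 => (Qc c).support.image fun ν =>
    algebraMap (PF k₀ N) L (algebraMap (MvPolynomial (Fin N) k₀) (PF k₀ N) (de ((Qc c).coeff ν)))
  obtain ⟨B, UB, hTB, hXB, hZB, h0B, hsp⟩ := hspec (Finset.univ.biUnion T ∪ TD)
  refine ⟨Finset.univ.biUnion EC ∪ UB ∪ Finset.univ.biUnion UC, Finset.univ.biUnion UC ∪ UB, ?_, ?_, ?_⟩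
  · intro h hh
    rcases Finset.mem_union.1 hh with h1 | h1
    · exact Finset.mem_union_right _ h1
    · exact Finset.mem_union_left _ (Finset.mem_union_right _ h1)
  · intro h0
    rcases Finset.mem_union.1 h0 with h1 | h1
    · obtain ⟨i, -, h3⟩ := Finset.mem_biUnion.1 h1
      exact h0C i h3
    · exact h0B h1
  intro k K₁ _ _ _ hcff ι a x z hx hgen hMa hne W hWE hWU e
  have hk0 : CharZero k := (ι.charZero_iff ι.injective).1 inferInstance
  obtain ⟨sp, hsp1, hspX, hspZ⟩ := hsp k K₁ ι a x z hx hMa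
    (fun h hh => hne h (Finset.mem_union_right _ hh))
  have hTT : ∀ i, ∀ t ∈ T i, t ∈ B ∧ t⁻¹ ∈ B := fun i t ht =>
    hTB t (Finset.mem_union_left _ (Finset.mem_biUnion.2 ⟨i, Finset.mem_univ _, ht⟩))
  -- some chart is good at a place
  have hyB : ∀ i j, y i j ∈ B := by
    intro i j
    fin_cases j
    · exact (hTT i _ (hxT i)).1
    · exact (hTT i _ (hdT i)).2
  have hyB' : ∀ i j, (y i j)⁻¹ ∈ B := by
    intro i j
    fin_cases j
    · exact (hTT i _ (hxT i)).2
    · change ((ev2 (xc i) (zc i) (derivative (Φc i)))⁻¹)⁻¹ ∈ B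
      rw [inv_inv]
      exact (hTT i _ (hdT i)).1
  have hchartat : ∀ P₁ : Place k K₁, ∃ i, (∀ h, sp ⟨xc i, h⟩ ∈ P₁.ring) ∧
      ∀ h, sp ⟨ev2 (xc i) (zc i) (derivative (Φc i)), h⟩ ∉ P₁.ring.nonunits := by
    intro P₁
    obtain ⟨i, hi⟩ := spec_cover hy0 hyB hyB' hQ0 hQ1 sp P₁.ring (fun c ν => by
      by_cases hν : ν ∈ (Qc c).support
      · have h1 : (algebraMap (PF k₀ N) L (algebraMap (MvPolynomial (Fin N) k₀) (PF k₀ N)
            (de ((Qc c).coeff ν))))⁻¹ ∈ B := (hTB _ (Finset.mem_union_right _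
          (Finset.mem_biUnion.2 ⟨c, Finset.mem_univ _, Finset.mem_image_of_mem _ hν⟩))).2
        obtain ⟨h2, h3⟩ := spec_aux hsp1 (hde ((Qc c).coeff ν)) h1 (nu ((Qc c).coeff ν)) P₁
        have h4 := hnd ((Qc c).coeff ν)
        have h5 : algebraMap (PF k₀ N) L ((Qc c).coeff ν) ∈ B := by
          rw [h4] at h2
          exact h2
        refine ⟨h5, ?_⟩
        have h6 : (⟨_, h5⟩ : B) = ⟨_, h2⟩ :=
          Subtype.ext (congrArg (algebraMap (PF k₀ N) L) h4.symm)
        rw [h6]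
        exact h3
      · have h1 : (Qc c).coeff ν = 0 := MvPolynomial.notMem_support_iff.1 hν
        have h5 : algebraMap (PF k₀ N) L ((Qc c).coeff ν) ∈ B := by
          rw [h1, map_zero]
          exact B.zero_mem
        refine ⟨h5, ?_⟩
        have h6 : (⟨_, h5⟩ : B) = 0 :=
          Subtype.ext ((congrArg (algebraMap (PF k₀ N) L) h1).trans (map_zero _))
        rw [h6, map_zero]
        exact P₁.ring.zero_mem)
    refine ⟨i, fun h => hi 0, fun h hn => ?_⟩
    have h1 := hi 1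
    have h2 : sp ⟨ev2 (xc i) (zc i) (derivative (Φc i)), h⟩ * sp ⟨y i 1, hyB i 1⟩ = 1 := by
      rw [← map_mul, ← map_one sp]
      congr 1
      exact Subtype.ext (mul_inv_cancel₀ (hdc i))
    rw [ValuationSubring.mem_nonunits_iff_or] at hn
    rcases hn with hn | hn
    · rw [hn, zero_mul] at h2
      exact zero_ne_one h2
    · apply hn
      rw [← eq_inv_of_mul_eq_one_right h2]
      exact h1
  intro P₁ h1
  obtain ⟨i, hi1, hi2⟩ := hchartat P₁
  obtain ⟨θ, π, q, p, hp, -, h3, h4⟩ := hchart i k K₁ hcff ι a x z hx hgen B sp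
    hsp1 (hTT i) hXB hZB (hspX _) (hspZ _)
    (fun h hh => hne h (Finset.mem_union_left _ (Finset.mem_biUnion.2 ⟨i, Finset.mem_univ _, hh⟩)))
    P₁ h1 hi1 hi2 W
    (fun h hh => hWE h (Finset.mem_union_left _ (Finset.mem_union_left _
      (Finset.mem_biUnion.2 ⟨i, Finset.mem_univ _, hh⟩))))
    (fun h hh => hWU h (Finset.mem_union_left _ (Finset.mem_biUnion.2 ⟨i, Finset.mem_univ _, hh⟩))) e
  exact ⟨θ, π, q, p, hp, h3, h4⟩

end Pool.Agent.RP
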