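import Pool.Agent.Helper10.RP.V2
import Pool.Agent.Helper10.RP.V3
import Pool.Agent.Helper10.SE.M1
import Pool.Agent.Helper10.SE.SP
import Pool.Agent.Helper34.SE.Cert
import Pool.Agent.Helper34.SE.LC
import Pool.Agent.Helper5.SE.Chart
import Pool.Agent.Helper88.SE.CFVL

/-!
# Project RP: the sections of the members of a family of curves, outside a hypersurface
-/

universe u

set_option linter.unusedSectionVars false

namespace Pool.Agent.RP

open VC Polynomial Pool.Agent.LT Pool.Agent.SC Pool.Agent.GC Pool.Agent.Helper91.Sect Pool.Agent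
  Pool.Agent.TWH Pool.Agent.TWU Pool.Agent.TWX Pool.Agent.SE

/-- **All sections of the members of a family of curves come from rational points over the places with
`gcd(n, ord_O(g)) ∣ j`, outside a hypersurface.** -/
theorem rp_hypersurfaceM {F₀ k₀ : Type u} [Field F₀] [CharZero F₀] [Field k₀] [Algebra F₀ k₀]
    (hk₀ : ∃ S : Finset k₀, Subfield.closure (S : Set k₀) = ⊤) {m : ℕ} {w : Fin (m + 1) → k₀}
    {i j l : Fin (m + 1)} (hw : AlgebraicIndependent F₀ ![w i / w l, w j / w l])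
    {N r : ℕ} {M : (MvPolynomial (Fin N) k₀)[X][X]} (hM : Irreducible M) (hM0 : 0 < M.natDegree)
    {P : Fin r → (MvPolynomial (Fin N) k₀)[X][X]} (hP : ∀ s, ¬ M ∣ P s) :
    ∃ Ψ : MvPolynomial (Fin N ⊕ Fin (m + 1)) F₀, Ψ ≠ 0 ∧
      ∀ (F k K₁ : Type u) [Field F] [Field k] [Field K₁] [Algebra F₀ F] [Algebra F k] [Algebra k₀ k]
        [Algebra F₀ k] [IsScalarTower F₀ F k] [IsScalarTower F₀ k₀ k] [Algebra k K₁],
        (∃ S : Finset F, Subfield.closure (S : Set F) = ⊤) →
        IntermediateField.adjoin F (Set.range (algebraMap k₀ k)) = ⊤ →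
        (∀ {n : ℕ} {x : Fin n → k₀}, AlgebraicIndependent F₀ x →
          AlgebraicIndependent F (algebraMap k₀ k ∘ x)) →
        ∀ x z : K₁, Transcendental k x → IntermediateField.adjoin k {x, z} = ⊤ →
        ∀ a : Fin N ⊕ Fin (m + 1) → F, MvPolynomial.aeval a Ψ ≠ 0 →
          ev3 (algebraMap k₀ k) (fun q => algebraMap F k (a (Sum.inl q))) x z M = 0 →
          ∀ e : Fin r → ℤ,
          RPTwist (∏ s, ev3 (algebraMap k₀ k) (fun q => algebraMap F k (a (Sum.inl q))) x z (P s) ^ e s)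
            (∑ e, algebraMap F k (a (Sum.inr e)) * algebraMap k₀ k (w e)) := by
  classical
  have hk₀0 : CharZero k₀ := charZero_of_injective_algebraMap (algebraMap F₀ k₀).injective
  obtain ⟨ff, E₁, U₁, hUE₁, hU0₁, hdeg, hlc, hd, hcE, hcoord⟩ := exists_coordM hM hM0 hP
  have hff0 : ff ≠ 0 := ne_zero_of_natDegree_gt (n := 0) (by omega)
  obtain ⟨E₂, U₂, hUE₂, hU0₂, hdat⟩ := dat lc cert sp (chart cfvl) hM hM0 hP hff0
  have hUE : U₁ ∪ U₂ ⊆ insert 1 (E₁ ∪ E₂) := fun z hz => Finset.mem_insert_of_mem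
    (Finset.union_subset_union hUE₁ hUE₂ hz)
  obtain ⟨Ψ, hΨ, h⟩ := exists_goodM hk₀ hw (insert 1 (E₁ ∪ E₂)) (U₁ ∪ U₂) hUE (by
    rw [Finset.mem_union, not_or]
    exact ⟨hU0₁, hU0₂⟩)
  refine ⟨Ψ, hΨ, ?_⟩
  intro F k K₁ _ _ _ _ _ _ _ _ _ _ hF hgenk hfree x z hx hgen a ha hMa e
  have hF0 : CharZero F := charZero_of_injective_algebraMap (algebraMap F₀ F).injective
  have hk := fg_composite hF hk₀ hgenk
  obtain ⟨⟨F', v, u, b, Δ, E', hF', hvu, hfin', hreg, hΔ, hgood, hE1, hTE, hb0, hbE, hbiE, hc0⟩, hne⟩ :=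
    h F k hF hgenk (fun hx => hfree hx) a ha
  have hne1 : ∀ h ∈ U₁, evp (algebraMap k₀ k) (fun q => algebraMap F k (a (Sum.inl q))) h ≠ 0 :=
    fun h hh => hne h (Finset.mem_union_left _ hh)
  have hne2 : ∀ h ∈ U₂, evp (algebraMap k₀ k) (fun q => algebraMap F k (a (Sum.inl q))) h ≠ 0 :=
    fun h hh => hne h (Finset.mem_union_right _ hh)
  have hc1 := hcoord k K₁ (algebraMap k₀ k) x z hx hgen _ hMa hne1 e
  have hE₁' : ∀ h ∈ insert 1 (E₁ ∪ E₂),
      evp (algebraMap k₀ k) (fun q => algebraMap F k (a (Sum.inl q))) h ∈ E' := fun h hh =>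
    hTE (Finset.mem_union_left _ (Finset.mem_image_of_mem _ hh))
  have hU' : ∀ h ∈ U₁ ∪ U₂,
      (evp (algebraMap k₀ k) (fun q => algebraMap F k (a (Sum.inl q))) h)⁻¹ ∈ E' := fun h hh =>
    hTE (Finset.mem_union_right _ (Finset.mem_image_of_mem (fun h =>
      (evp (algebraMap k₀ k) (fun q => algebraMap F k (a (Sum.inl q))) h)⁻¹) hh))
  rw [hc0]
  refine rp_of_goodAt hF' hk hc1 hvu hfin' hreg hb0 hΔ hE1 ?_ hgood ?_
  · refine Finset.union_subset ?_ (Finset.union_subset ?_ ?_)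
    · refine (goodElts_evp (E := insert 1 (E₁ ∪ E₂)) (U := U₁ ∪ U₂) hdeg (Finset.mem_union_left _ hlc)
        (Finset.mem_union_left _ hd)
        (fun i => Finset.mem_insert_of_mem (Finset.mem_union_left _ (hcE i)))
        (Finset.mem_insert_self _ _) hne).trans hTE
    · refine Finset.Subset.trans ?_ hTE
      exact Finset.union_subset_union (Finset.image_subset_image fun z hz =>
        Finset.mem_insert_of_mem (Finset.mem_union_left _ hz))
        (Finset.image_subset_image Finset.subset_union_left)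
    · intro z hz
      rw [Finset.mem_insert, Finset.mem_singleton] at hz
      rcases hz with rfl | rfl
      · exact hbE
      · exact hbiE
  · intro W hW O hO
    refine hdat k K₁ hc1.ff (algebraMap k₀ k) _ x z hx hgen hMa hne2 W
      (fun h hh => hW _ (hE₁' h (Finset.mem_insert_of_mem (Finset.mem_union_right _ hh))))
      (fun h hh => ?_) e O hO
    have h1 := (W.valuation_le_one_iff _).2 (hW _ (hE₁' h (hUE (Finset.mem_union_right _ hh))))
    have h2 := (W.valuation_le_one_iff _).2 (hW _ (hU' h (Finset.mem_union_right _ hh)))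
    rw [map_inv₀, map_inv₀] at h2
    have h3 : W.valuation (algebraMap k (AlgebraicClosure k)
        (evp (algebraMap k₀ k) (fun q => algebraMap F k (a (Sum.inl q))) h)) ≠ 0 :=
      (Valuation.ne_zero_iff _).2 ((_root_.map_ne_zero _).2 (hne2 h hh))
    exact le_antisymm h1 ((inv_le_one₀ (zero_lt_iff.2 h3)).1 h2)

end Pool.Agent.RP
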